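import Pool.Agent.Helper26.CL.St

/-! Project CM, module Hw: the weighted sum of the mean cluster sizes is small. -/

set_option autoImplicit false

open scoped BigOperators ENNReal Topology
open Pool.LE Pool.NL Filter

namespace Pool.CN

namespace HwM

theorem mem_Bn {d n : ℕ} {x : Zd d} : x ∈ Bn d n ↔ ∀ i, 0 ≤ x i ∧ x i < n := by
  unfold Bn
  rw [Fintype.mem_piFinset]
  simp only [Finset.mem_Ico]

/-- slice of the box -/
noncomputable def sl {d : ℕ} (n : ℕ) (i : Fin d) (t : ℕ) : Finset (Zd d) :=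
  (Bn d n).filter (fun b => b i = (t : ℤ))

theorem mem_sl {d n t : ℕ} {i : Fin d} {b : Zd d} : b ∈ sl n i t ↔ b ∈ Bn d n ∧ b i = (t : ℤ) := by
  unfold sl
  exact Finset.mem_filter

theorem card_sl {d : ℕ} (n : ℕ) (i : Fin d) (t : ℕ) : (sl n i t).card ≤ n ^ (d - 1) := by
  classical
  have h1 : sl n i t ⊆ Fintype.piFinset
      (fun j : Fin d => if j = i then ({(t : ℤ)} : Finset ℤ) else Finset.Ico (0 : ℤ) (n : ℤ)) := by
    intro b hb
    rw [mem_sl, mem_Bn] at hb
    rw [Fintype.mem_piFinset]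
    intro j
    by_cases hj : j = i
    · rw [if_pos hj, Finset.mem_singleton, hj]
      exact hb.2
    · rw [if_neg hj, Finset.mem_Ico]
      exact hb.1 j
  refine (Finset.card_le_card h1).trans ?_
  rw [Fintype.card_piFinset]
  have h2 : ∀ j : Fin d, (if j = i then ({(t : ℤ)} : Finset ℤ) else Finset.Ico (0 : ℤ) (n : ℤ)).card =
      if j = i then 1 else n := by
    intro j
    by_cases hj : j = i
    · rw [if_pos hj, if_pos hj, Finset.card_singleton]
    · rw [if_neg hj, if_neg hj, Int.card_Ico]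
      simp
  rw [Finset.prod_congr rfl (fun j _ => h2 j), Finset.prod_ite, Finset.prod_const_one, one_mul,
    Finset.prod_const]
  have h3 : (Finset.univ.filter (fun j : Fin d => ¬ j = i)).card = d - 1 := by
    rw [Finset.filter_ne', Finset.card_erase_of_mem (Finset.mem_univ i), Finset.card_univ,
      Fintype.card_fin]
  rw [h3]

theorem sum_sl {d : ℕ} (n : ℕ) (i : Fin d) (f : Zd d → ℝ) :
    ∑ b ∈ Bn d n, f b = ∑ t ∈ Finset.range n, ∑ b ∈ sl n i t, f b := by
  classical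
  have h := Finset.sum_fiberwise_of_maps_to (s := Bn d n) (t := Finset.range n)
    (g := fun b : Zd d => (b i).toNat) (fun b hb => by
      have hb' := (mem_Bn.1 hb) i
      rw [Finset.mem_range]
      omega) f
  rw [← h]
  apply Finset.sum_congr rfl
  intro t _
  have e : (Bn d n).filter (fun b : Zd d => (b i).toNat = t) = sl n i t := by
    unfold sl
    apply Finset.filter_congr
    intro b hb
    have hb' := (mem_Bn.1 hb) i
    constructor
    · intro h; omega
    · intro h; omega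
  rw [e]

/-- tail of the sum of inverse squares -/
theorem tail_le (T : ℕ) (hT : 1 ≤ T) (n : ℕ) :
    ∑ t ∈ Finset.range n, (if t < T then (0 : ℝ) else 1 / ((t : ℝ) + 1) ^ 2) ≤ 1 / T := by
  have hT0 : (0 : ℝ) < T := by exact_mod_cast hT
  have key : ∀ m : ℕ, ∑ t ∈ Finset.range (T + m),
      (if t < T then (0 : ℝ) else 1 / ((t : ℝ) + 1) ^ 2) ≤ 1 / T - 1 / ((T : ℝ) + m) := by
    intro m
    induction m with
    | zero =>
      rw [Finset.sum_eq_zero]
      · simp
      · intro t ht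
        rw [Finset.mem_range] at ht
        rw [if_pos (by omega)]
    | succ m ih =>
      rw [← add_assoc, Finset.sum_range_succ, if_neg (by omega)]
      have hm : (0 : ℝ) < (T : ℝ) + m := by positivity
      have h1 : 1 / (((T + m : ℕ) : ℝ) + 1) ^ 2 ≤ 1 / ((T : ℝ) + m) - 1 / ((T : ℝ) + (m + 1 : ℕ)) := by
        push_cast
        rw [div_sub_div _ _ hm.ne' (by positivity)]
        rw [div_le_div_iff₀ (by positivity) (by positivity)]
        nlinarith
      linarith
  by_cases hn : n < T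
  · rw [Finset.sum_eq_zero]
    · positivity
    · intro t ht
      rw [Finset.mem_range] at ht
      rw [if_pos (by omega)]
  · obtain ⟨m, rfl⟩ := Nat.exists_eq_add_of_le (not_lt.1 hn)
    have h1 : (0 : ℝ) ≤ 1 / ((T : ℝ) + m) := by positivity
    linarith [key m]

theorem card_lt_le (T n : ℕ) (a : ℝ) (ha : 0 ≤ a) :
    ∑ t ∈ Finset.range n, (if t < T then a else 0) ≤ T * a := by
  rw [← Finset.sum_filter, Finset.sum_const, nsmul_eq_mul]
  apply mul_le_mul_of_nonneg_right _ ha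
  have h : ((Finset.range n).filter (fun t => t < T)).card ≤ T := by
    have : (Finset.range n).filter (fun t => t < T) ⊆ Finset.range T := by
      intro t ht
      rw [Finset.mem_filter] at ht
      exact Finset.mem_range.2 ht.2
    have h2 := Finset.card_le_card this
    rwa [Finset.card_range] at h2
  exact_mod_cast h

section Main

variable {d : ℕ} {C₁ B c₀ : ℝ}

/-- abbreviation -/
noncomputable def H (d n : ℕ) (b : Zd d) : ℝ := hh (Bn d n) (ES (Bn d n)) (pH d) b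

theorem H_nonneg (hBn : StBn) (hHh : StHh) (hE : Env d C₁ B c₀) (n : ℕ) {b : Zd d}
    (hb : b ∈ Bn d n) : 0 ≤ H d n b := by
  have h := (hHh (Zd d) (Bn d n) (ES (Bn d n)) (2 * d) (pH d) (hBn d n).1 hE.p0.le
    (hE.p1.trans (by norm_num))).2.2.2.2 b hb
  unfold H
  linarith

theorem har_iter (hHar : StHar) (hBox : StBox) (hE : Env d C₁ B c₀) (n : ℕ) (i : Fin d) (t : ℕ) :
    ∀ b ∈ sl n i t, pH d ^ t * H d n b ≤ H d n (Function.update b i 0) ∧
      Function.update b i 0 ∈ sl n i 0 := by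
  have hp0 : 0 ≤ pH d := hE.p0.le
  induction t with
  | zero =>
    intro b hb
    rw [mem_sl] at hb
    have e : Function.update b i 0 = b := by
      funext j
      by_cases hj : j = i
      · rw [hj, Function.update_self, hb.2]; rfl
      · rw [Function.update_of_ne hj]
    rw [e, pow_zero, one_mul, mem_sl]
    exact ⟨le_rfl, hb⟩
  | succ t ih =>
    intro b hb
    rw [mem_sl] at hb
    obtain ⟨hbB, hbi⟩ := hb
    set u : Zd d := Function.update b i (t : ℤ) with hu
    have hui : u i = (t : ℤ) := by rw [hu, Function.update_self]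
    have huB : u ∈ Bn d n := by
      rw [mem_Bn] at hbB ⊢
      intro j
      by_cases hj : j = i
      · rw [hj, hui]
        have := hbB i
        rw [hbi] at this
        push_cast at this
        constructor
        · positivity
        · linarith [this.2]
      · rw [hu, Function.update_of_ne hj]
        exact hbB j
    have hnb : u ∈ nb b := by
      rw [(hBox d).2.2.1]
      refine ⟨i, Or.inr ?_⟩
      funext j
      by_cases hj : j = i
      · rw [hj, hui, Pi.sub_apply, Pi.single_eq_same, hbi]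
        push_cast
        ring
      · rw [hu, Function.update_of_ne hj, Pi.sub_apply, Pi.single_eq_of_ne hj, sub_zero]
    have h1 := hHar d n (pH d) hp0 (hE.p1.trans (by norm_num)) b hbB u huB hnb
    have h1' : pH d * H d n b ≤ H d n u := h1
    obtain ⟨h2, h3⟩ := ih u (mem_sl.2 ⟨huB, hui⟩)
    have e : Function.update u i (0 : ℤ) = Function.update b i 0 := by
      rw [hu, Function.update_idem]
    rw [e] at h2 h3
    refine ⟨?_, h3⟩
    calc pH d ^ (t + 1) * H d n b = pH d ^ t * (pH d * H d n b) := by ring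
      _ ≤ pH d ^ t * H d n u := mul_le_mul_of_nonneg_left h1' (pow_nonneg hp0 t)
      _ ≤ H d n (Function.update b i 0) := h2

theorem slice_le (hHar : StHar) (hBox : StBox) (hBn : StBn) (hHh : StHh) (hE : Env d C₁ B c₀)
    (n : ℕ) (i : Fin d) (t : ℕ) :
    pH d ^ t * ∑ b ∈ sl n i t, H d n b ≤ ∑ b ∈ sl n i 0, H d n b := by
  classical
  rw [Finset.mul_sum]
  calc ∑ b ∈ sl n i t, pH d ^ t * H d n b
      ≤ ∑ b ∈ sl n i t, H d n (Function.update b i 0) :=
        Finset.sum_le_sum (fun b hb => (har_iter hHar hBox hE n i t b hb).1)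
    _ = ∑ b ∈ (sl n i t).image (fun b => Function.update b i 0), H d n b := by
        rw [Finset.sum_image]
        intro b hb c hc hbc
        have hb' := (mem_sl.1 hb).2
        have hc' := (mem_sl.1 hc).2
        funext j
        by_cases hj : j = i
        · rw [hj, hb', hc']
        · have h := congrFun hbc j
          simp only [Function.update_of_ne hj] at h
          exact h
    _ ≤ ∑ b ∈ sl n i 0, H d n b := by
        apply Finset.sum_le_sum_of_subset_of_nonneg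
        · intro b hb
          rw [Finset.mem_image] at hb
          obtain ⟨c, hc, rfl⟩ := hb
          exact (har_iter hHar hBox hE n i t c hc).2
        · intro b hb _
          exact H_nonneg hBn hHh hE n (mem_sl.1 hb).1

theorem slice_ub (hHub : StHub) (hE : Env d C₁ B c₀) (n : ℕ) (hn : 1 ≤ n) (i : Fin d) (t : ℕ) :
    ∑ b ∈ sl n i t, H d n b ≤ C₁ * (n : ℝ) ^ (d + 1) := by
  have hC : 0 ≤ C₁ := le_trans zero_le_one hE.hC
  have hd : 1 ≤ d := le_trans (by norm_num) hE.hd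
  calc ∑ b ∈ sl n i t, H d n b ≤ ∑ _b ∈ sl n i t, C₁ * (n : ℝ) ^ 2 :=
        Finset.sum_le_sum (fun b hb => hHub d C₁ B c₀ hE n hn b (mem_sl.1 hb).1)
    _ = ((sl n i t).card : ℝ) * (C₁ * (n : ℝ) ^ 2) := by rw [Finset.sum_const, nsmul_eq_mul]
    _ ≤ ((n : ℝ) ^ (d - 1)) * (C₁ * (n : ℝ) ^ 2) := by
        apply mul_le_mul_of_nonneg_right _ (by positivity)
        exact_mod_cast card_sl n i t
    _ = C₁ * (n : ℝ) ^ (d + 1) := by
        have e : d + 1 = (d - 1) + 2 := by omega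
        rw [e, pow_add]; ring

/-- the face -/
theorem face_le (hFace : StFace) (hE : Env d C₁ B c₀) (n : ℕ) (hn : 1 ≤ n) (i : Fin d) :
    pH d ^ 2 * (∑ b ∈ sl n i 0, H d n b) ^ 4 ≤ 4 * C₁ ^ 3 * B * (n : ℝ) ^ (4 * d + 3) := by
  have hd : 1 ≤ d := le_trans (by norm_num) hE.hd
  have h1 := hFace d C₁ B c₀ hE n i hn
  have e0 : (Bn d n).filter (fun x : Zd d => x i = 0) = sl n i 0 := by
    unfold sl
    norm_num
  rw [e0] at h1
  have h1' : (pH d * ∑ x ∈ sl n i 0, (H d n x) ^ 2) ^ 2 ≤ 4 * C₁ ^ 3 * B * (n : ℝ) ^ (2 * d + 5) := h1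
  have h2 : (∑ b ∈ sl n i 0, H d n b) ^ 2 ≤ (n : ℝ) ^ (d - 1) * ∑ b ∈ sl n i 0, (H d n b) ^ 2 := by
    refine sq_sum_le_card_mul_sum_sq.trans ?_
    apply mul_le_mul_of_nonneg_right _ (Finset.sum_nonneg (fun b _ => sq_nonneg _))
    exact_mod_cast card_sl n i 0
  have h3 : (0 : ℝ) ≤ (∑ b ∈ sl n i 0, H d n b) ^ 2 := sq_nonneg _
  calc pH d ^ 2 * (∑ b ∈ sl n i 0, H d n b) ^ 4
      = pH d ^ 2 * ((∑ b ∈ sl n i 0, H d n b) ^ 2) ^ 2 := by ring
    _ ≤ pH d ^ 2 * ((n : ℝ) ^ (d - 1) * ∑ b ∈ sl n i 0, (H d n b) ^ 2) ^ 2 := by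
        apply mul_le_mul_of_nonneg_left _ (sq_nonneg _)
        exact pow_le_pow_left₀ h3 h2 2
    _ = ((n : ℝ) ^ (d - 1)) ^ 2 * (pH d * ∑ x ∈ sl n i 0, (H d n x) ^ 2) ^ 2 := by ring
    _ ≤ ((n : ℝ) ^ (d - 1)) ^ 2 * (4 * C₁ ^ 3 * B * (n : ℝ) ^ (2 * d + 5)) :=
        mul_le_mul_of_nonneg_left h1' (sq_nonneg _)
    _ = 4 * C₁ ^ 3 * B * (n : ℝ) ^ (4 * d + 3) := by
        have e : 4 * d + 3 = (d - 1) * 2 + (2 * d + 5) := by omega
        rw [e, pow_add, pow_mul]; ring

/-- the bound for one direction -/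
theorem dir_le (hHar : StHar) (hBox : StBox) (hBn : StBn) (hHh : StHh) (hHub : StHub)
    (hE : Env d C₁ B c₀) (n : ℕ) (hn : 1 ≤ n) (i : Fin d) (T : ℕ) (hT : 1 ≤ T) :
    ∑ b ∈ Bn d n, H d n b * (1 / ((b i : ℝ) + 1) ^ 2) ≤
      T * ((pH d ^ T)⁻¹ * ∑ b ∈ sl n i 0, H d n b) + C₁ * (n : ℝ) ^ (d + 1) * (1 / T) := by
  have hp0 : 0 < pH d := hE.p0
  have hp1 : pH d ≤ 1 := hE.p1.trans (by norm_num)
  have hC : 0 ≤ C₁ := le_trans zero_le_one hE.hC
  set S : ℕ → ℝ := fun t => ∑ b ∈ sl n i t, H d n b with hS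
  have hS0 : ∀ t, 0 ≤ S t := fun t =>
    Finset.sum_nonneg (fun b hb => H_nonneg hBn hHh hE n (mem_sl.1 hb).1)
  have h1 : ∑ b ∈ Bn d n, H d n b * (1 / ((b i : ℝ) + 1) ^ 2) =
      ∑ t ∈ Finset.range n, S t * (1 / ((t : ℝ) + 1) ^ 2) := by
    rw [sum_sl n i]
    apply Finset.sum_congr rfl
    intro t _
    rw [hS, Finset.sum_mul]
    apply Finset.sum_congr rfl
    intro b hb
    rw [(mem_sl.1 hb).2]
    norm_num
  rw [h1]
  have h2 : ∀ t ∈ Finset.range n, S t * (1 / ((t : ℝ) + 1) ^ 2) ≤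
      (if t < T then (pH d ^ T)⁻¹ * S 0 else 0) +
        C₁ * (n : ℝ) ^ (d + 1) * (if t < T then (0 : ℝ) else 1 / ((t : ℝ) + 1) ^ 2) := by
    intro t _
    by_cases ht : t < T
    · rw [if_pos ht, if_pos ht, mul_zero, add_zero]
      have h3 : S t * (1 / ((t : ℝ) + 1) ^ 2) ≤ S t := by
        apply mul_le_of_le_one_right (hS0 t)
        rw [div_le_one (by positivity)]
        have : (0 : ℝ) ≤ t := Nat.cast_nonneg t
        nlinarith
      have h4 : pH d ^ T * S t ≤ S 0 := by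
        refine le_trans ?_ (slice_le hHar hBox hBn hHh hE n i t)
        apply mul_le_mul_of_nonneg_right _ (hS0 t)
        exact pow_le_pow_of_le_one hp0.le hp1 ht.le
      have h5 : S t ≤ (pH d ^ T)⁻¹ * S 0 := by
        rw [inv_mul_eq_div, le_div_iff₀ (pow_pos hp0 T)]
        linarith
      linarith
    · rw [if_neg ht, if_neg ht, zero_add]
      apply mul_le_mul_of_nonneg_right _ (by positivity)
      exact slice_ub hHub hE n hn i t
  refine (Finset.sum_le_sum h2).trans ?_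
  rw [Finset.sum_add_distrib, ← Finset.mul_sum]
  apply add_le_add
  · apply card_lt_le
    have := hS0 0
    positivity
  · apply mul_le_mul_of_nonneg_left (tail_le T hT n)
    positivity

/-- one direction tends to zero -/
theorem dir_tendsto (hFace : StFace) (hHar : StHar) (hBox : StBox) (hBn : StBn) (hHh : StHh)
    (hHub : StHub) (hE : Env d C₁ B c₀) (i : Fin d) :
    Tendsto (fun n : ℕ => (∑ b ∈ Bn d n, H d n b * (1 / ((b i : ℝ) + 1) ^ 2)) / (n : ℝ) ^ (d + 1))
      atTop (𝓝 0) := by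
  have hp0 : 0 < pH d := hE.p0
  have hC : 0 < C₁ := lt_of_lt_of_le zero_lt_one hE.hC
  have hB : 0 < B := lt_of_lt_of_le zero_lt_one hE.hB
  rw [Metric.tendsto_atTop]
  intro ε hε
  -- choose T
  obtain ⟨T, hT⟩ := exists_nat_gt (4 * C₁ / ε)
  have hT0 : (0 : ℝ) < T := lt_trans (by positivity) hT
  have hT1 : 1 ≤ T := by exact_mod_cast hT0
  have hT2 : C₁ * (1 / (T : ℝ)) ≤ ε / 4 := by
    rw [mul_one_div, div_le_iff₀ hT0]
    rw [div_lt_iff₀ hε] at hT
    linarith
  set a : ℝ := T * (pH d ^ T)⁻¹ with ha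
  have ha0 : 0 < a := by positivity
  set δ : ℝ := ε / (4 * a) with hδ
  have hδ0 : 0 < δ := by positivity
  set K : ℝ := 4 * C₁ ^ 3 * B / pH d ^ 2 with hK
  have hK0 : 0 < K := by positivity
  obtain ⟨N, hN⟩ := exists_nat_gt (K / δ ^ 4)
  refine ⟨max N 1, ?_⟩
  intro n hn
  have hn1 : 1 ≤ n := le_trans (le_max_right _ _) hn
  have hnN : N ≤ n := le_trans (le_max_left _ _) hn
  have hn0 : (0 : ℝ) < n := by exact_mod_cast hn1
  have hnp : (0 : ℝ) < (n : ℝ) ^ (d + 1) := by positivity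
  set S0 : ℝ := ∑ b ∈ sl n i 0, H d n b with hS0
  have hS00 : 0 ≤ S0 := Finset.sum_nonneg (fun b hb => H_nonneg hBn hHh hE n (mem_sl.1 hb).1)
  have hnonneg : 0 ≤ (∑ b ∈ Bn d n, H d n b * (1 / ((b i : ℝ) + 1) ^ 2)) / (n : ℝ) ^ (d + 1) := by
    apply div_nonneg _ hnp.le
    apply Finset.sum_nonneg
    intro b hb
    apply mul_nonneg (H_nonneg hBn hHh hE n hb)
    positivity
  -- the ratio for the face
  have hX : S0 / (n : ℝ) ^ (d + 1) ≤ δ := by
    have h1 := face_le hFace hE n hn1 i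
    have h2 : (S0 / (n : ℝ) ^ (d + 1)) ^ 4 ≤ δ ^ 4 := by
      rw [div_pow, div_le_iff₀ (by positivity)]
      have h3 : S0 ^ 4 ≤ K * (n : ℝ) ^ (4 * d + 3) := by
        rw [hK, div_mul_eq_mul_div, le_div_iff₀ (by positivity)]
        linarith
      have h4 : K ≤ δ ^ 4 * n := by
        have h5 : K / δ ^ 4 < n := lt_of_lt_of_le hN (by exact_mod_cast hnN)
        rw [div_lt_iff₀ (by positivity)] at h5
        linarith
      calc S0 ^ 4 ≤ K * (n : ℝ) ^ (4 * d + 3) := h3
        _ ≤ (δ ^ 4 * n) * (n : ℝ) ^ (4 * d + 3) := mul_le_mul_of_nonneg_right h4 (by positivity)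
        _ = δ ^ 4 * ((n : ℝ) ^ (d + 1)) ^ 4 := by
            have e : ((n : ℝ) ^ (d + 1)) ^ 4 = (n : ℝ) ^ (4 * d + 3 + 1) := by
              rw [← pow_mul]; congr 1; ring
            rw [e, pow_succ]; ring
    exact (pow_le_pow_iff_left₀ (div_nonneg hS00 hnp.le) hδ0.le (by norm_num)).1 h2
  have hmain := dir_le hHar hBox hBn hHh hHub hE n hn1 i T hT1
  rw [Real.dist_eq, sub_zero, abs_of_nonneg hnonneg, div_lt_iff₀ hnp]
  have h6 : S0 ≤ δ * (n : ℝ) ^ (d + 1) := by
    rwa [div_le_iff₀ hnp] at hX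
  have h7 : T * ((pH d ^ T)⁻¹ * S0) ≤ ε / 4 * (n : ℝ) ^ (d + 1) := by
    calc T * ((pH d ^ T)⁻¹ * S0) = a * S0 := by rw [ha]; ring
      _ ≤ a * (δ * (n : ℝ) ^ (d + 1)) := mul_le_mul_of_nonneg_left h6 ha0.le
      _ = ε / 4 * (n : ℝ) ^ (d + 1) := by
          rw [hδ]; field_simp
  have h8 : C₁ * (n : ℝ) ^ (d + 1) * (1 / T) ≤ ε / 4 * (n : ℝ) ^ (d + 1) := by
    calc C₁ * (n : ℝ) ^ (d + 1) * (1 / T) = (C₁ * (1 / T)) * (n : ℝ) ^ (d + 1) := by ring
      _ ≤ ε / 4 * (n : ℝ) ^ (d + 1) := mul_le_mul_of_nonneg_right hT2 hnp.le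
  have h9 : 0 < ε * (n : ℝ) ^ (d + 1) := mul_pos hε hnp
  nlinarith

/-- reflection of the weight -/
theorem sum_refl (hRf : StRf) (hE : Env d C₁ B c₀) (n : ℕ) (i : Fin d) :
    ∑ b ∈ Bn d n, H d n b * (1 / ((n : ℝ) - b i) ^ 2) =
      ∑ b ∈ Bn d n, H d n b * (1 / ((b i : ℝ) + 1) ^ 2) := by
  obtain ⟨h1, h2⟩ := hRf d n (pH d) i hE.p0.le (hE.p1.trans (by norm_num))
  have hinv : ∀ b : Zd d, rfl' i ((n : ℤ) - 1) (rfl' i ((n : ℤ) - 1) b) = b := by
    intro b
    unfold rfl'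
    rw [Function.update_self, Function.update_idem]
    rw [sub_sub_cancel, Function.update_eq_self]
  apply Finset.sum_nbij' (rfl' i ((n : ℤ) - 1)) (rfl' i ((n : ℤ) - 1))
  · intro b hb; exact (h1 b).1 hb
  · intro b hb; exact (h1 b).1 hb
  · intro b _; exact hinv b
  · intro b _; exact hinv b
  · intro b hb
    have h3 : H d n (rfl' i ((n : ℤ) - 1) b) = H d n b := h2 b hb
    rw [h3]
    have h4 : ((rfl' i ((n : ℤ) - 1) b) i : ℤ) = (n : ℤ) - 1 - b i := by
      unfold rfl'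
      rw [Function.update_self]
    rw [h4]
    push_cast
    congr 3
    ring

end Main

end HwM

open HwM

theorem hHw (hFace : StFace) (hRf : StRf) (hHar : StHar) (hHub : StHub) (hBn : StBn)
    (hBox : StBox) (hHh : StHh) : StHw := by
  intro d C₁ B c₀ hE
  have key : ∀ n : ℕ, (∑ b ∈ Bn d n, hh (Bn d n) (ES (Bn d n)) (pH d) b * wb n b) /
      (n : ℝ) ^ (d + 1) = ∑ i : Fin d,
        ((∑ b ∈ Bn d n, H d n b * (1 / ((b i : ℝ) + 1) ^ 2)) / (n : ℝ) ^ (d + 1) +
          (∑ b ∈ Bn d n, H d n b * (1 / ((b i : ℝ) + 1) ^ 2)) / (n : ℝ) ^ (d + 1)) := by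
    intro n
    have e1 : ∑ b ∈ Bn d n, hh (Bn d n) (ES (Bn d n)) (pH d) b * wb n b =
        ∑ i : Fin d, ∑ b ∈ Bn d n, (H d n b * (1 / ((b i : ℝ) + 1) ^ 2) +
          H d n b * (1 / ((n : ℝ) - b i) ^ 2)) := by
      rw [Finset.sum_comm]
      apply Finset.sum_congr rfl
      intro b _
      unfold wb H
      rw [Finset.mul_sum]
      apply Finset.sum_congr rfl
      intro i _
      rw [mul_add]
    rw [e1, Finset.sum_div]
    apply Finset.sum_congr rfl
    intro i _
    rw [Finset.sum_add_distrib, sum_refl hRf hE n i, add_div]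
  simp only [key]
  have h : Tendsto (fun n : ℕ => ∑ i : Fin d,
        ((∑ b ∈ Bn d n, H d n b * (1 / ((b i : ℝ) + 1) ^ 2)) / (n : ℝ) ^ (d + 1) +
          (∑ b ∈ Bn d n, H d n b * (1 / ((b i : ℝ) + 1) ^ 2)) / (n : ℝ) ^ (d + 1)))
      atTop (𝓝 (∑ _i : Fin d, ((0 : ℝ) + 0))) := by
    apply tendsto_finsetSum
    intro i _
    exact (dir_tendsto hFace hHar hBox hBn hHh hHub hE i).add
      (dir_tendsto hFace hHar hBox hBn hHh hHub hE i)
  simpa using h

end Pool.CN
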